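import Pool.Agent.P8H33.QC.Stm

/-!
# Package QC/EXA (for helper33): the quartic `X ^ 4 + 2 X + 2` over `ℚ_2`
-/

set_option autoImplicit false

open Polynomial

namespace Pool.Agent.P8H76.QC

theorem norm_two : ‖(2 : ℚ_[2])‖ = 1 / 2 := by
  have h := Padic.norm_p (p := 2)
  rw [Nat.cast_ofNat] at h
  rw [h]
  norm_num

/-- the quartic over `ℤ_2` -/
noncomputable def fZ : ℤ_[2][X] := X ^ 4 + (C 2 * X + C 2)

theorem fZ_low : (C 2 * X + C 2 : ℤ_[2][X]).degree < 4 := by
  refine lt_of_le_of_lt (degree_linear_le) (by norm_num)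

theorem fZ_monic : fZ.Monic := monic_X_pow_add fZ_low

theorem fZ_deg : fZ.natDegree = 4 := by
  have : fZ.degree = 4 := by
    rw [fZ, degree_add_eq_left_of_degree_lt] <;> rw [degree_X_pow]
    · rfl
    · exact fZ_low
  exact natDegree_eq_of_degree_eq_some this

theorem two_prime : Prime (2 : ℤ_[2]) := by
  have := PadicInt.prime_p (p := 2)
  rwa [Nat.cast_ofNat] at this

theorem fZ_irr : Irreducible fZ := by
  have hpr : (Ideal.span {(2 : ℤ_[2])}).IsPrime := (Ideal.span_singleton_prime two_prime.ne_zero).2 two_prime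
  have hE : fZ.IsEisensteinAt (Ideal.span {(2 : ℤ_[2])}) := by
    refine ⟨?_, ?_, ?_⟩
    · rw [fZ_monic.leadingCoeff]
      exact (Ideal.ne_top_iff_one _).1 hpr.ne_top
    · intro n hn
      rw [fZ_deg] at hn
      have h4 : (X ^ 4 : ℤ_[2][X]).coeff n = 0 := by rw [coeff_X_pow, if_neg hn.ne]
      rw [fZ, coeff_add, h4, zero_add, ← mul_one (C (2 : ℤ_[2]))]
      rw [mul_assoc, ← mul_add, coeff_C_mul]
      exact Ideal.mul_mem_right _ _ (Ideal.mem_span_singleton_self _)
    · have h0 : fZ.coeff 0 = 2 := by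
        rw [fZ]
        simp
      rw [h0, Ideal.span_singleton_pow, Ideal.mem_span_singleton]
      rintro ⟨c, hc⟩
      have h1 : (1 : ℤ_[2]) = 2 * c := by
        apply mul_left_cancel₀ two_prime.ne_zero
        rw [mul_one, ← mul_assoc, ← pow_two]
        exact hc
      exact two_prime.not_isUnit (IsUnit.of_mul_eq_one c h1.symm)
  exact hE.irreducible hpr fZ_monic.isPrimitive (by rw [fZ_deg]; norm_num)

/-- the quartic over `ℚ_2` -/
noncomputable def f : ℚ_[2][X] := fZ.map (algebraMap ℤ_[2] ℚ_[2])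

theorem f_irr : Irreducible f :=
  (fZ_monic.irreducible_iff_irreducible_map_fraction_map (K := ℚ_[2])).1 fZ_irr

theorem f_deg : f.natDegree = 4 := by
  rw [f, fZ_monic.natDegree_map, fZ_deg]

theorem f_monic : f.Monic := fZ_monic.map _

/-- the resolvent cubic -/
noncomputable def g : ℚ_[2][X] := X ^ 3 + (C (-8) * X + C (-4))

theorem g_low : (C (-8) * X + C (-4) : ℚ_[2][X]).degree < 3 := by
  refine lt_of_le_of_lt (degree_linear_le) (by norm_num)

theorem g_monic : g.Monic := monic_X_pow_add g_low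

theorem g_deg : g.natDegree = 3 := by
  have : g.degree = 3 := by
    rw [g, degree_add_eq_left_of_degree_lt] <;> rw [degree_X_pow]
    · rfl
    · exact g_low
  exact natDegree_eq_of_degree_eq_some this

theorem no_root (y : ℚ_[2]) (hy : y ^ 3 = 8 * y + 4) : False := by
  have h8 : ‖(8 : ℚ_[2])‖ = 1 / 8 := by
    rw [show (8 : ℚ_[2]) = 2 ^ 3 by norm_num, norm_pow, norm_two]; norm_num
  have h4 : ‖(4 : ℚ_[2])‖ = 1 / 4 := by
    rw [show (4 : ℚ_[2]) = 2 ^ 2 by norm_num, norm_pow, norm_two]; norm_num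
  have h0 : y ≠ 0 := by
    rintro rfl
    norm_num at hy
  have hn : ‖y‖ ^ 3 = ‖8 * y + 4‖ := by rw [← norm_pow, hy]
  have hlt : ‖y‖ < 1 := by
    by_contra h
    push Not at h
    have h1 : ‖8 * y + 4‖ ≤ max ‖8 * y‖ ‖(4 : ℚ_[2])‖ := IsUltrametricDist.norm_add_le_max _ _
    rw [norm_mul, h8, h4] at h1
    have h2 : ‖y‖ ≤ ‖y‖ ^ 3 := le_self_pow₀ h (by norm_num)
    rcases le_max_iff.1 h1 with h3 | h3
    · linarith
    · linarith
  have h5 : ‖8 * y + 4‖ = 1 / 4 := by
    have h6 : ‖8 * y‖ < ‖(4 : ℚ_[2])‖ := by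
      rw [norm_mul, h8, h4]
      linarith
    rw [IsUltrametricDist.norm_add_eq_max_of_norm_ne_norm h6.ne, max_eq_right h6.le, h4]
  rw [h5, Padic.norm_eq_zpow_neg_valuation h0] at hn
  have h6 : ((2 : ℝ) ^ (-y.valuation)) ^ (3 : ℕ) = (2 : ℝ) ^ (-2 : ℤ) := by
    have h7 := hn
    rw [Nat.cast_ofNat] at h7
    rw [h7]
    norm_num
  rw [← zpow_natCast, ← zpow_mul] at h6
  have h7 := zpow_right_injective₀ (by norm_num : (0:ℝ) < 2) (by norm_num : (2:ℝ) ≠ 1) h6
  omega

theorem g_irr : Irreducible g := by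
  rw [g_monic.irreducible_iff_roots_eq_zero_of_degree_le_three (by rw [g_deg]; norm_num) (by rw [g_deg])]
  rw [Multiset.eq_zero_iff_forall_notMem]
  intro y hy
  have h1 := (mem_roots'.1 hy).2
  rw [IsRoot, g] at h1
  simp only [eval_add, eval_pow, eval_X, eval_mul, eval_C] at h1
  exact no_root y (by linear_combination h1)

theorem exists_fun {K : Type} (s : Multiset K) (n : ℕ) (hs : s.card = n) :
    ∃ α : Fin n → K, s = Multiset.map α Finset.univ.val := by
  subst hs
  induction s using Quotient.inductionOn with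
  | h l =>
    refine ⟨fun i => l.get i, ?_⟩
    rw [Fin.univ_val_map]
    show (l : Multiset K) = _
    congr 1
    exact (List.ofFn_get l).symm

theorem exa : Pool.Agent.P8H33.QC.S_GRA → Pool.Agent.P8H33.QC.S_EXA := by
  intro hG
  have hsp : (f.map (algebraMap ℚ_[2] (PadicAlgCl 2))).Splits := IsAlgClosed.splits _
  have hcard : (f.map (algebraMap ℚ_[2] (PadicAlgCl 2))).roots.card = 4 := by
    rw [← hsp.natDegree_eq_card_roots, f_monic.natDegree_map, f_deg]
  obtain ⟨α, hα⟩ := exists_fun _ 4 hcard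
  have hnod : (f.map (algebraMap ℚ_[2] (PadicAlgCl 2))).roots.Nodup := nodup_roots f_irr.separable.map
  have hinj : Function.Injective α := by
    rw [hα] at hnod
    have h1 := Multiset.inj_on_of_nodup_map hnod
    intro i j hij
    exact h1 i (Finset.mem_univ i) j (Finset.mem_univ j) hij
  have hprod := hsp.eq_prod_roots_of_monic (f_monic.map _)
  have hev : ∀ x : PadicAlgCl 2, x ^ 4 + 2 * x + 2 = (x - α 0) * (x - α 1) * (x - α 2) * (x - α 3) := by
    intro x
    have h1 := congrArg (eval x) hprod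
    rw [hα, Multiset.map_map] at h1
    have h2 : (Multiset.map ((fun a => X - C a) ∘ α) (Finset.univ : Finset (Fin 4)).val).prod =
        ∏ i, (X - C (α i)) := rfl
    rw [h2, Fin.prod_univ_four] at h1
    simp only [eval_mul, eval_sub, eval_X, eval_C] at h1
    have h3 : (algebraMap ℚ_[2] (PadicAlgCl 2)) ((2 : ℤ_[2]) : ℚ_[2]) = 2 := by
      have h4 : ((2 : ℤ_[2]) : ℚ_[2]) = 2 := rfl
      rw [h4, map_ofNat]
    rw [← h1, f, fZ, Polynomial.map_map]
    simp [h3]
    ring
  have hroot : ∀ i, α i ^ 4 + 2 * α i + 2 = 0 := by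
    intro i
    rw [hev]
    fin_cases i <;> simp
  have e0 := hev 0
  have e1 := hev 1
  have e2 := hev (-1)
  have e3 := hev 2
  refine ⟨α, hinj, hroot, hG 2 f g f_irr f_deg g_irr g_deg α hα ?_⟩
  have s4 : α 0 * α 1 * α 2 * α 3 = 2 := by linear_combination -e0
  have s2 : α 0 * α 1 + α 0 * α 2 + α 0 * α 3 + α 1 * α 2 + α 1 * α 3 + α 2 * α 3 = 0 := by
    linear_combination (-(1:PadicAlgCl 2)/2) * e1 - (1/2) * e2 + e0
  have s1 : α 0 + α 1 + α 2 + α 3 = 0 := by
    linear_combination ((1:PadicAlgCl 2)/6) * e3 - (1/3) * e1 + (1/3) * s2 - (1/6) * s4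
  have s3 : α 0 * α 1 * α 2 + α 0 * α 1 * α 3 + α 0 * α 2 * α 3 + α 1 * α 2 * α 3 = -2 := by
    linear_combination e1 - s1 + s2 + s4
  rw [g]
  simp only [map_add, map_mul, map_pow, aeval_X, map_neg, map_ofNat]
  generalize α 0 = a at *
  generalize α 1 = b at *
  generalize α 2 = c at *
  generalize α 3 = d at *
  linear_combination ((a * b + c * d) ^ 2 - 4 * (a * b * c * d)) * s2 -
    ((a * b + c * d) * (a * b * c + a * b * d + a * c * d + b * c * d) - (a + b + c + d) * (a * b * c * d)) * s1 +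
    4 * (a * b + c * d) * s4 + ((a * b * c + a * b * d + a * c * d + b * c * d) - 2) * s3

end Pool.Agent.P8H76.QC
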